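import Pool.Agent.Helper4.NB.Sec

/-!
# The secrets lemma for blocks of symbols: nearly hidden words
-/

set_option autoImplicit false

namespace Pool.Agent.Helper4.NC

open Pool.Agent.Helper19.NF
open Pool.Agent.Helper60.NF (xw child xw_eq child_inj child_lt)
open Pool.Agent.Helper60.NFF (obs_congr run_succ)
open Pool.Agent.Helper4.NB

variable {U D B ι Q Z κ : Type} [Fintype D] [AddCommGroup B] [Fintype ι] {σ S : ℕ}

/-- The secrets lemma for blocks of symbols, with a finite set of nodes. -/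
theorem secrets_core_M [Fintype B] [Finite Q] (g : D → Equiv.Perm U) (x0 : U → B) (n a : ℕ)
    (A : (ι → Q) → D → B) {ρ : ℕ} (r : Finset ι → (ι → Q) → Fin ρ)
    (hr' : ∀ (X : Finset ι) (y y' : ι → Q), X.card = Fintype.card ι - a →
      (∀ l, l ∉ X → y l = y' l) → A y = A y' → r X y = r X y' → y = y')
    (M : ℕ) (hρB : M * (ρ * Nat.card B ^ Fintype.card D) ≤ (M + 1) * Nat.card Q ^ (Fintype.card ι - a))
    (P : Prog (B × ι) Q Z σ S) (q : Fin S) (ann : (ℕ → (B × ι) ⊕ Z) → κ → ℕ → B → Prop)
    (hann : AnnSys a ann) (G : Finset (ℕ × U)) (hG : ∀ w ∈ G, 1 ≤ w.1 ∧ w.1 < n)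
    (sg : ℕ × U → D) (num : ℕ × U → κ) :
    M ^ (Gp g G sg).card * (Nat.card {J : B × ι → Q // Pool.Agent.Helper60.NF.CF g x0 n (wd A J) ∧
      ∀ w ∈ G, ∃ t, ann (obs P J q) (num w) t (xw g x0 (wd A J) w) ∧
        (sy (obs P J q) (xw g x0 (wd A J) (child g w (sg w))) (t + 1)).card ≤ a} *
      Fintype.card B ^ G.card) ≤ (M + 1) ^ (Gp g G sg).card * Nat.card (B × ι → Q) := by
  classical
  obtain ⟨h', hh'⟩ : ∃ h', h' = Fintype.card ι - a := ⟨_, rfl⟩
  rw [← hh'] at hρB
  have hBp : 0 < Nat.card B := Nat.card_pos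
  rcases isEmpty_or_nonempty (B × ι → Q) with hE | hE
  · rw [Nat.card_of_isEmpty (α := {J : B × ι → Q // _}), zero_mul, mul_zero]
    exact Nat.zero_le _
  have hQp : 0 < Nat.card Q ^ ((Gp g G sg).card * h') := by
    rcases isEmpty_or_nonempty Q with hQ | hQ
    · rcases isEmpty_or_nonempty ι with hι | ⟨⟨l⟩⟩
      · have h1 : h' = 0 := by rw [hh', Fintype.card_eq_zero (α := ι)]; exact Nat.zero_sub a
        rw [h1, mul_zero, pow_zero]
        exact one_pos
      · obtain ⟨J⟩ := hE
        exact (hQ.false (J (0, l))).elim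
    · exact pow_pos Nat.card_pos _
  set PP : Set (B × ι → Q) := {J | Pool.Agent.Helper60.NF.CF g x0 n (wd A J) ∧
      ∀ w ∈ G, ∃ t, ann (obs P J q) (num w) t (xw g x0 (wd A J) w) ∧
        (sy (obs P J q) (xw g x0 (wd A J) (child g w (sg w))) (t + 1)).card ≤ a} with hPP
  have h := Pool.Agent.Helper60.NS.packing (κ := (Yc g G sg → B) × (Gp g G sg → Fin ρ)) PP
    (fun J => Ob g x0 G sg A a J (obs P J q)) ((Gp g G sg).card * h')
    (fun J c => (∀ y : Yc g G sg, c.1 y = wd A J (xw g x0 (wd A J) y.1.1) y.1.2) ∧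
      ∀ v : Gp g G sg, c.2 v = r (Xc a (fs a (obs P J q) (xw g x0 (wd A J) v.1)))
        (fun l => J (xw g x0 (wd A J) v.1, l))) ?_
    (fun J hJ => by
      rw [hh']
      exact Ob_ncard hJ.1 hG) ?_
  · have h1 : Nat.card ((Yc g G sg → B) × (Gp g G sg → Fin ρ)) =
        Nat.card B ^ (Yc g G sg).card * ρ ^ (Gp g G sg).card := by
      rw [Nat.card_prod, Nat.card_fun, Nat.card_fun]
      simp
    rw [h1] at h
    have hY := Yc_card (g := g) (sg := sg) hG
    have e1 : (Nat.card Q ^ h') ^ (Gp g G sg).card = Nat.card Q ^ ((Gp g G sg).card * h') := by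
      rw [← pow_mul, mul_comm]
    have e2 : (Nat.card B ^ Fintype.card D) ^ (Gp g G sg).card =
        Nat.card B ^ (Yc g G sg).card * Nat.card B ^ G.card := by
      rw [← pow_mul, ← pow_add, hY, mul_comm]
    have h2 : (M ^ (Gp g G sg).card * (Nat.card PP * Fintype.card B ^ G.card)) *
        (Nat.card B ^ (Yc g G sg).card * Nat.card Q ^ ((Gp g G sg).card * h')) ≤
        ((M + 1) ^ (Gp g G sg).card * Nat.card (B × ι → Q)) *
        (Nat.card B ^ (Yc g G sg).card * Nat.card Q ^ ((Gp g G sg).card * h')) := by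
      calc (M ^ (Gp g G sg).card * (Nat.card PP * Fintype.card B ^ G.card)) *
            (Nat.card B ^ (Yc g G sg).card * Nat.card Q ^ ((Gp g G sg).card * h'))
          = M ^ (Gp g G sg).card * ((Nat.card PP * Nat.card Q ^ ((Gp g G sg).card * h')) *
            (Nat.card B ^ Fintype.card D) ^ (Gp g G sg).card) := by
              rw [e2, Nat.card_eq_fintype_card (α := B)]
              ring
        _ ≤ M ^ (Gp g G sg).card *
            ((Nat.card B ^ (Yc g G sg).card * ρ ^ (Gp g G sg).card * Nat.card (B × ι → Q)) *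
            (Nat.card B ^ Fintype.card D) ^ (Gp g G sg).card) :=
              Nat.mul_le_mul_left _ (Nat.mul_le_mul_right _ h)
        _ = Nat.card (B × ι → Q) * (Nat.card B ^ (Yc g G sg).card *
            (M * (ρ * Nat.card B ^ Fintype.card D)) ^ (Gp g G sg).card) := by
              rw [mul_pow, mul_pow]
              ring
        _ ≤ Nat.card (B × ι → Q) * (Nat.card B ^ (Yc g G sg).card *
            ((M + 1) * Nat.card Q ^ h') ^ (Gp g G sg).card) := by
              gcongr
        _ = _ := by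
              rw [mul_pow, e1]
              ring
    exact Nat.le_of_mul_le_mul_right h2 (Nat.mul_pos (pow_pos hBp _) hQp)
  · exact fun J _ => ⟨(fun y => wd A J (xw g x0 (wd A J) y.1.1) y.1.2, fun v =>
      r (Xc a (fs a (obs P J q) (xw g x0 (wd A J) v.1))) (fun l => J (xw g x0 (wd A J) v.1, l))),
      fun _ => rfl, fun _ => rfl⟩
  · rintro J ⟨hJ, ha⟩ J' ⟨hJ', ha'⟩ c K hs hs' hK hK'
    have hT : Twin g x0 n a G sg A r J J' K (obs P J q) (obs P J' q) :=
      ⟨hG, hJ, hJ', hK, hK', fun y hy => (hs.1 ⟨y, hy⟩).symm.trans (hs'.1 ⟨y, hy⟩),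
        fun v hv => (hs.2 ⟨v, hv⟩).symm.trans (hs'.2 ⟨v, hv⟩)⟩
    -- the two runs agree
    have hlock : ∀ t, ∀ j ≤ t, (P.step J)^[j] q = (P.step J')^[j] q := by
      intro t
      induction t with
      | zero =>
        intro j hj
        obtain rfl : j = 0 := by omega
        rfl
      | succ t ih =>
        have ho : ∀ j ≤ t, obs P J q j = obs P J' q j := fun j hj => obs_congr (ih j hj)
        intro j hj
        rcases Nat.lt_or_eq_of_le hj with h6 | h6
        · exact ih j (by omega)
        · subst h6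
          refine run_succ (ih t le_rfl) ?_
          rintro ⟨b, l⟩ hx
          by_cases h7 : (b, l) ∈ Ob g x0 G sg A a J (obs P J q)
          · exact hT.ans hr' hann ha ha' ho hx h7
          · by_cases h8 : (b, l) ∈ Ob g x0 G sg A a J' (obs P J' q)
            · exact (hT.symm.ans hr' hann ha' ha (fun j hj => (ho j hj).symm)
                ((ho t le_rfl).symm.trans hx) h8).symm
            · rw [← hK _ h7, ← hK' _ h8]
    have ho : ∀ j, obs P J q j = obs P J' q j := fun j => obs_congr (hlock j j le_rfl)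
    have hoo : obs P J q = obs P J' q := funext ho
    have hv : ∀ w ∈ G, xw g x0 (wd A J) w = xw g x0 (wd A J') w := by
      intro w hw
      obtain ⟨t₁, h3, -⟩ := ha w hw
      obtain ⟨t₂, h4, -⟩ := ha' w hw
      exact same_of_le hann (t := t₁) (fun j _ => ho j) h3 h4 le_rfl
    have hval : ∀ v ∈ Gp g G sg, xw g x0 (wd A J) v = xw g x0 (wd A J') v := by
      intro v hv'
      by_cases hvG : v ∈ G
      · exact hv v hvG
      · exact hT.out _ _ (Gp_lt hG hv').le hvG
    funext x
    obtain ⟨b, l⟩ := x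
    by_cases h7 : (b, l) ∈ Ob g x0 G sg A a J (obs P J q)
    · obtain ⟨v, h8, h9, h10⟩ := h7
      simp only at h9
      subst h9
      exact congrFun (hT.block hr' h8 (hval v h8) (by rw [hoo]) fun w hw _ => hv w hw) l
    · by_cases h8 : (b, l) ∈ Ob g x0 G sg A a J' (obs P J' q)
      · obtain ⟨v, h8, h9, h10⟩ := h8
        simp only at h9
        subst h9
        exact (congrFun (hT.symm.block hr' h8 (hval v h8).symm (by rw [hoo])
          fun w hw _ => (hv w hw).symm) l).symm
      · rw [← hK _ h7, ← hK' _ h8]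


end Pool.Agent.Helper4.NC
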