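import Pool.Agent.Helper27.NC.Defs
import Pool.Agent.Helper4.NB.Frm
import Pool.Agent.Helper4.NC.Sec

/-!
# The secrets lemma in the frame
-/

set_option autoImplicit false

namespace Pool.Agent.Helper4.NC

open Pool.Agent.Helper6.IP (cnt cnt_lt cnt_congr)
open Pool.Agent.Helper19.NF (Prog obs val CF)
open Pool.Agent.Helper27.NB (rd New Early Rip crip Hit)
open Pool.Agent.Helper27.NC (Hid)
open Pool.Agent.Helper60.NF (xw child)
open Pool.Agent.Helper60.NFF (val_eq cf_iff)
open Pool.Agent.Helper4.NB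

variable {U D B Λ F Z : Type} [Fintype D] [AddCommGroup B] [Fintype B] [Fintype Λ] [Fintype F]
  {σ S ρ h a M : ℕ}

/-- `(1 + 1 / M) ^ g` is at most `2`. -/
theorem pow_le_two {M g : ℕ} (hM1 : 1 ≤ M) (hg : 2 * g ≤ M) : (M + 1) ^ g ≤ 2 * M ^ g := by
  have hM : (0 : ℝ) < M := by exact_mod_cast hM1
  have h1 : ((M : ℝ) + 1) = M * (1 + 1 / M) := by
    field_simp
  have h2 : (1 + 1 / (M : ℝ)) ≤ Real.exp (1 / M) := by
    have := Real.add_one_le_exp (1 / (M : ℝ))
    linarith
  have h3 : (1 + 1 / (M : ℝ)) ^ g ≤ 2 := by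
    have h4 : (1 + 1 / (M : ℝ)) ^ g ≤ Real.exp (1 / M) ^ g := pow_le_pow_left₀ (by positivity) h2 g
    have h5 : Real.exp (1 / M) ^ g = Real.exp (g * (1 / M)) := by rw [← Real.exp_nat_mul]
    have h6 : (g : ℝ) * (1 / M) ≤ 1 / 2 := by
      rw [mul_one_div, div_le_div_iff₀ hM (by norm_num)]
      have : (2 * g : ℝ) ≤ M := by exact_mod_cast hg
      linarith
    have h7 : Real.exp (1 / 2) ≤ 2 := by
      have h8 : Real.exp (1 / 2) * Real.exp (1 / 2) = Real.exp 1 := by
        rw [← Real.exp_add]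
        norm_num
      have h9 := Real.exp_one_lt_d9
      have h10 := Real.exp_pos (1 / 2)
      nlinarith
    calc (1 + 1 / (M : ℝ)) ^ g ≤ Real.exp (g * (1 / M)) := h4.trans_eq h5
      _ ≤ Real.exp (1 / 2) := Real.exp_le_exp.2 h6
      _ ≤ 2 := h7
  have h4 : ((M : ℝ) + 1) ^ g ≤ 2 * (M : ℝ) ^ g := by
    rw [h1, mul_pow]
    have : (0 : ℝ) ≤ (M : ℝ) ^ g := by positivity
    nlinarith
  exact_mod_cast h4

/-- B2': the secrets lemma. -/
theorem secrets {ι : Type} [Fintype ι] (H : Hid Λ F (D → B) ρ h M) (hah : a + h = Fintype.card Λ)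
    (hM1 : 1 ≤ M) (hM : 4 * Fintype.card ι ≤ M)
    (g : D → Equiv.Perm U) (x0 : U → B) (n : ℕ) (P : Prog (B × Λ) F Z σ S) (q : Fin S) (nd : ι → ℕ × U)
    (hinj : Function.Injective nd) (hrow : ∀ i, 1 ≤ (nd i).1 ∧ (nd i).1 < n) (sl : ι → D) (kind : ι → Bool)
    (num : ι → ℕ) :
    Nat.card {J : B × Λ → F // CF g x0 n (Pool.Agent.Helper27.NC.wd H J) ∧ ∀ i, Hit a (obs P J q) (kind i)
      (val g x0 (Pool.Agent.Helper27.NC.wd H J) (nd i).1 (nd i).2)
      (val g x0 (Pool.Agent.Helper27.NC.wd H J) ((nd i).1 - 1) (g (sl i) (nd i).2)) (num i)} *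
      Fintype.card B ^ Fintype.card ι ≤ 2 * Nat.card (B × Λ → F) := by
  classical
  have hh : h = Fintype.card Λ - a := by omega
  rcases isEmpty_or_nonempty ι with hι | ⟨⟨i₀⟩⟩
  · rw [Fintype.card_eq_zero (α := ι), pow_zero, mul_one]
    refine (Nat.card_le_card_of_injective Subtype.val Subtype.val_injective).trans ?_
    omega
  · set G : Finset (ℕ × U) := Finset.univ.image nd with hGd
    have hG : ∀ w ∈ G, 1 ≤ w.1 ∧ w.1 < n := by
      intro w hw
      obtain ⟨i, -, rfl⟩ := Finset.mem_image.1 hw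
      exact hrow i
    have hcard : M * (ρ * Nat.card B ^ Fintype.card D) ≤ (M + 1) * Nat.card F ^ (Fintype.card Λ - a) := by
      have h1 := H.card
      rw [Nat.card_fun, Nat.card_eq_fintype_card (α := D), hh] at h1
      exact h1
    have h := secrets_core_M g x0 n a H.dec H.res (fun X y y' hX => H.inj X (hX.trans hh.symm) y y') M hcard P q
      (ann a) (annSys a) G hG (Function.extend nd sl fun _ => sl i₀)
      (Function.extend nd (fun i => (kind i, num i)) fun _ => (true, 0))
    have hGc : G.card = Fintype.card ι := by rw [hGd, Finset.card_image_of_injective _ hinj, Finset.card_univ]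
    have hg : (Gp g G (Function.extend nd sl fun _ => sl i₀)).card ≤ 2 * Fintype.card ι := by
      unfold Gp
      refine (Finset.card_union_le _ _).trans ?_
      have h1 := Finset.card_image_le (s := G)
        (f := fun w => child g w ((Function.extend nd sl fun _ => sl i₀) w))
      omega
    have hpow := pow_le_two (M := M) (g := (Gp g G (Function.extend nd sl fun _ => sl i₀)).card) hM1 (by omega)
    have hMp : 0 < M ^ (Gp g G (Function.extend nd sl fun _ => sl i₀)).card := pow_pos (by omega) _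
    have h' := Nat.le_of_mul_le_mul_left (h.trans ((Nat.mul_le_mul_right _ hpow).trans_eq (by ring :
      2 * M ^ (Gp g G (Function.extend nd sl fun _ => sl i₀)).card * Nat.card (B × Λ → F) =
        M ^ (Gp g G (Function.extend nd sl fun _ => sl i₀)).card * (2 * Nat.card (B × Λ → F))))) hMp
    rw [hGc] at h'
    refine le_trans (Nat.mul_le_mul_right _ ?_) h'
    refine Nat.card_le_card_of_injective (fun J => ⟨J.1, (cf_iff g x0 n _).1 J.2.1, ?_⟩) ?_
    · intro w hw
      obtain ⟨i, -, rfl⟩ := Finset.mem_image.1 hw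
      rw [hinj.extend_apply, hinj.extend_apply]
      have hCF : Pool.Agent.Helper60.NF.CF g x0 n (wd H.dec J.1) := (cf_iff g x0 n _).1 J.2.1
      obtain ⟨t, h1, h2⟩ := J.2.2 i
      rw [val_eq] at h1 h2
      refine ⟨t, h2, ?_⟩
      -- at the time `t` a symbol of the node is observed
      have hN : ∃ l, obs P J.1 q t = Sum.inl (xw g x0 (wd H.dec J.1) (nd i), l) := by
        split_ifs at h2
        · obtain ⟨⟨⟨l, h3, -⟩, -⟩, -⟩ := h2
          exact ⟨l, h3⟩
        · obtain ⟨⟨⟨l, h3, -⟩, -⟩, -⟩ := h2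
          exact ⟨l, h3⟩
      obtain ⟨l, hl⟩ := hN
      have hsub : sy (obs P J.1 q) (xw g x0 (wd H.dec J.1) (child g (nd i) (sl i))) (t + 1) ⊆
          sy (obs P J.1 q) (xw g x0 (wd H.dec J.1) (child g (nd i) (sl i))) t := by
        intro l' hl'
        rw [mem_sy] at hl' ⊢
        obtain ⟨j, hj, hj'⟩ := hl'
        refine ⟨j, ?_, hj'⟩
        by_contra h3
        have h4 : j = t := by omega
        subst h4
        rw [hl, Sum.inl.injEq, Prod.mk.injEq] at hj'
        have h5 := hCF.inj (hrow i).2 (Pool.Agent.Helper60.NF.child_lt (hrow i).1 (hrow i).2.le) hj'.1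
        have h6 := congrArg Prod.fst h5
        have h7 := (hrow i).1
        simp only [child] at h6
        omega
      refine (Finset.card_le_card hsub).trans ?_
      rw [← rd_eq]
      exact h1
    · intro J J' hJ
      exact Subtype.ext (Subtype.mk.inj hJ)

end Pool.Agent.Helper4.NC
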